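import Mathlib
import Pool.Agent.Run7.h847.Final

set_option autoImplicit false

namespace Pool.Agent.Results.MP_a38735_al.LeftOrderable

/-- **Freiheitssatz for one-relator products of left-orderable groups.** Let `A` and `B` be
groups carrying linear orders invariant under left multiplication, let `r` be an element of the
free product `A * B` that is not conjugate to an element of `A` or of `B` (a proper power or
not), and let `m ≥ 1`. Then `A` and `B` both embed into the quotient of `A * B` by the normal
closure of `r ^ m`. -/
theorem result :
    ∀ (A B : Type) [Group A] [Group B] [LinearOrder A] [LinearOrder B],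
      (∀ c a a' : A, a < a' → c * a < c * a') →
      (∀ c b b' : B, b < b' → c * b < c * b') →
      ∀ r : Monoid.Coprod A B,
        (∀ g : Monoid.Coprod A B, ∀ a : A, r ≠ g * Monoid.Coprod.inl a * g⁻¹) →
        (∀ g : Monoid.Coprod A B, ∀ b : B, r ≠ g * Monoid.Coprod.inr b * g⁻¹) →
        ∀ m : ℕ, 1 ≤ m →
          Function.Injective
              ((QuotientGroup.mk' (Subgroup.normalClosure ({r ^ m} : Set (Monoid.Coprod A B)))).comp
                (Monoid.Coprod.inl : A →* Monoid.Coprod A B)) ∧
          Function.Injective
              ((QuotientGroup.mk' (Subgroup.normalClosure ({r ^ m} : Set (Monoid.Coprod A B)))).comp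
                (Monoid.Coprod.inr : B →* Monoid.Coprod A B)) := by
  intro A B _ _ _ _ hA hB r h1 h2 m hm
  exact Run7.h847.freiheitssatz hA hB r h1 h2 m hm

end Pool.Agent.Results.MP_a38735_al.LeftOrderable
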